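import Pool.Agent.Q169.MP.Main

/-!
# Conformal upper box dimension of Mandelbrot percolation

For Mandelbrot percolation `F` in `[0,1]^d` with base `n` and retention probability `p`,
`n ^ (-d) < p < 1`, almost surely on `F ≠ ∅` the conformal upper box dimension of `F` is strictly
smaller than its upper box dimension (question Q1).

Definitions (in `Pool.Agent.Q169.MP.Defs` and `Pool.Agent.Q169.MP.Geom`):
* `Letter d n = Fin d → Fin n` indexes the `n ^ d` subcubes of a cube;
* `ξ (u, a) ω = true` says that the subcube `a` of the cube coded by `u` is retained;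
* `perc d n _` is `⋂ k, F_k`, where `F_k` is the union of the level `k` cubes all of whose
  ancestors (and which themselves) are retained; it is a subset of `EuclideanSpace ℝ (Fin d)`;
* `upperBoxDim` is the upper box-counting dimension of a metric space;
* `IsQuasisymmetric` is quasisymmetry of a homeomorphism;
* `conformalUpperBoxDim X` is the infimum of `upperBoxDim Y` over all metric spaces `Y`
  quasisymmetrically equivalent to `X`.
-/

namespace Pool.Agent.Results.MP_c03e51_gt.ConformalBoxDrop

open MeasureTheory ProbabilityTheory Q169.MP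

/-- Let `d ≥ 1`, `n ≥ 2`, `n ^ (-d) < p < 1`, and let the subcubes be retained independently with
probability `p`. Then the percolation set `F` is nonempty with positive probability, and there is
a constant `c < d + log p / log n` such that almost surely, if `F` is nonempty, the conformal
upper box dimension of `F` is at most `c` and the upper box dimension of `F` is larger than `c`;
in particular the conformal upper box dimension is strictly smaller. -/
theorem result (d n : ℕ) (hd : 1 ≤ d) (hn : 2 ≤ n) (p : ℝ) (hp : ((n : ℝ) ^ d)⁻¹ < p)
    (hp1 : p < 1) {Ω : Type*} [MeasurableSpace Ω] (P : Measure Ω) [IsProbabilityMeasure P]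
    (ξ : List (Letter d n) × Letter d n → Ω → Bool) (hmeas : ∀ i, Measurable (ξ i))
    (hindep : iIndepFun ξ P) (hlaw : ∀ i, P {ω | ξ i ω = true} = ENNReal.ofReal p) :
    P {ω | (perc d n (fun i => ξ i ω)).Nonempty} ≠ 0 ∧
    (∀ᵐ ω ∂P, (perc d n (fun i => ξ i ω)).Nonempty →
      conformalUpperBoxDim (perc d n (fun i => ξ i ω)) <
        upperBoxDim (perc d n (fun i => ξ i ω))) ∧
    ∃ c : ℝ, c < d + Real.log p / Real.log n ∧
      ∀ᵐ ω ∂P, (perc d n (fun i => ξ i ω)).Nonempty →
        conformalUpperBoxDim (perc d n (fun i => ξ i ω)) ≤ c := by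
  obtain ⟨h1, c, hc, h2⟩ := main d n hd hn p hp hp1 P ξ hmeas hindep hlaw
  refine ⟨h1, ?_, c, hc, ?_⟩
  · filter_upwards [h2] with ω hω hne
    exact lt_of_le_of_lt (hω hne).1 (hω hne).2
  · filter_upwards [h2] with ω hω hne
    exact (hω hne).1

end Pool.Agent.Results.MP_c03e51_gt.ConformalBoxDrop
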